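import Pool.Agent.helper58.DC.Spec4

set_option autoImplicit false

open Pool.Agent Pool.Agent.helper58.DC

namespace Pool.Agent.helper62.DZ

section
variable {G : Type} [Group G]

theorem LF_NC [DecidableEq (Subgroup G)] (C : List (Subgroup G)) : DD.NC C = nrm C.toFinset := by
  unfold DD.NC nrm
  simp only [List.mem_toFinset]

/-- uniqueness of strictly increasing lists -/
theorem LF_uniq [DecidableEq (Subgroup G)] (C C' : List (Subgroup G)) (h : C.Pairwise (· < ·))
    (h' : C'.Pairwise (· < ·)) (he : C.toFinset = C'.toFinset) : C = C' := by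
  have hp : C.Perm C' := List.perm_of_nodup_nodup_toFinset_eq (h.imp fun h => h.ne)
    (h'.imp fun h => h.ne) he
  refine List.Perm.eq_of_pairwise ?_ h h' hp
  intro a b _ _ hab hba
  exact absurd (hab.trans hba) (lt_irrefl _)

theorem LF_take [DecidableEq (Subgroup G)] (C : List (Subgroup G)) (h : C.Pairwise (· < ·))
    (i : ℕ) (hi : i < C.length) (x : Subgroup G) :
    x ∈ C.take (i + 1) ↔ x ∈ C ∧ x ≤ C[i] := by
  rw [List.pairwise_iff_getElem] at h
  constructor
  · intro hx
    rw [List.mem_take_iff_getElem] at hx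
    obtain ⟨j, hj, rfl⟩ := hx
    refine ⟨List.getElem_mem _, ?_⟩
    have hji : j ≤ i := by omega
    rcases hji.lt_or_eq with h1 | h1
    · exact (h j i (by omega) hi h1).le
    · subst h1; exact le_rfl
  · rintro ⟨hx, hxi⟩
    obtain ⟨j, hj, rfl⟩ := List.getElem_of_mem hx
    rw [List.mem_take_iff_getElem]
    refine ⟨j, ?_, rfl⟩
    by_contra hcon
    have : i < j := by omega
    exact absurd (h i j hi hj this) (not_lt_of_ge hxi)

theorem LF_chain [DecidableEq (Subgroup G)] (C : List (Subgroup G)) (h : C.Pairwise (· < ·)) :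
    IsChain (· ≤ ·) (C.toFinset : Set (Subgroup G)) := by
  intro a ha b hb hab
  rw [List.coe_toFinset] at ha hb
  rw [List.pairwise_iff_getElem] at h
  obtain ⟨i, hi, rfl⟩ := List.getElem_of_mem ha
  obtain ⟨j, hj, rfl⟩ := List.getElem_of_mem hb
  rcases lt_trichotomy i j with h1 | h1 | h1
  · exact Or.inl (h i j hi hj h1).le
  · subst h1; exact Or.inl le_rfl
  · exact Or.inr (h j i hj hi h1).le

open Classical in
theorem LF_nrm [DecidableEq (Subgroup G)] (C : List (Subgroup G)) (h : C.Pairwise (· < ·))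
    (i : ℕ) (hi : i < C.length) :
    DD.NC (C.take (i + 1)) = nrm (C.toFinset.filter (· ≤ C[i])) := by
  unfold DD.NC nrm
  have : ∀ P, P ∈ C.take (i + 1) ↔ P ∈ C.toFinset.filter (· ≤ C[i]) := by
    intro P
    rw [LF_take C h i hi P, Finset.mem_filter, List.mem_toFinset]
  simp only [this]

theorem LF_rad [DecidableEq (Subgroup G)] (p : ℕ) (C : List (Subgroup G)) (h : DD.Radical p C) :
    IsRadical p C.toFinset := by
  have hlen : 0 < C.length := List.length_pos_of_ne_nil h.ne
  have h0 : DD.IsOp p ⊤ C[0] := h.zero C[0] (by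
    rw [List.head?_eq_getElem?, List.getElem?_eq_getElem hlen])
  have hp := h.strict
  rw [List.pairwise_iff_getElem] at hp
  refine ⟨LF_chain C h.strict, ?_, C[0], ?_, ?_, h0, ?_⟩
  · intro P hP
    rw [List.mem_toFinset] at hP
    obtain ⟨i, hi, rfl⟩ := List.getElem_of_mem hP
    rcases i with _ | i
    · exact h0.1.2.1
    · exact (h.succ i hi).1.2.1
  · rw [List.mem_toFinset]; exact List.getElem_mem _
  · intro P hP
    rw [List.mem_toFinset] at hP
    obtain ⟨i, hi, rfl⟩ := List.getElem_of_mem hP
    rcases i with _ | i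
    · exact le_rfl
    · exact (hp 0 (i + 1) hlen hi (Nat.succ_pos _)).le
  · intro P hP hne
    rw [List.mem_toFinset] at hP
    obtain ⟨i, hi, rfl⟩ := List.getElem_of_mem hP
    rcases i with _ | i
    · exact absurd rfl hne
    · have h1 := h.succ i hi
      rw [LF_nrm C h.strict (i + 1) hi] at h1
      exact h1

theorem LF_ex [DecidableEq (Subgroup G)] (n : ℕ) : ∀ D : Finset (Subgroup G), D.card = n →
    IsChain (· ≤ ·) (D : Set (Subgroup G)) →
    ∃ C : List (Subgroup G), C.Pairwise (· < ·) ∧ C.toFinset = D := by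
  induction n with
  | zero =>
    intro D hD _
    rw [Finset.card_eq_zero] at hD
    subst hD
    exact ⟨[], List.Pairwise.nil, rfl⟩
  | succ n ih =>
    intro D hD hch
    have hne : D.Nonempty := by
      rw [← Finset.card_pos]; omega
    obtain ⟨m, hm⟩ := D.exists_minimal hne
    have hmD : m ∈ D := hm.1
    have hlow : ∀ x ∈ D, m ≤ x := by
      intro x hx
      by_cases hxm : x = m
      · exact hxm ▸ le_rfl
      · rcases hch hx hmD hxm with h1 | h1
        · exact hm.2 hx h1
        · exact h1
    obtain ⟨C, hC1, hC2⟩ := ih (D.erase m) (by rw [Finset.card_erase_of_mem hmD]; omega)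
      (hch.mono (by intro x hx; exact Finset.mem_of_mem_erase (Finset.mem_coe.1 hx)))
    refine ⟨m :: C, ?_, ?_⟩
    · rw [List.pairwise_cons]
      refine ⟨fun x hx => ?_, hC1⟩
      have hx' : x ∈ D.erase m := by rw [← hC2, List.mem_toFinset]; exact hx
      rw [Finset.mem_erase] at hx'
      exact lt_of_le_of_ne (hlow x hx'.2) (Ne.symm hx'.1)
    · rw [List.toFinset_cons, hC2, Finset.insert_erase hmD]

theorem LF_rad' [DecidableEq (Subgroup G)] (p : ℕ) (C : List (Subgroup G))
    (hs : C.Pairwise (· < ·)) (h : IsRadical p C.toFinset) : DD.Radical p C := by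
  obtain ⟨-, -, P₀, hP₀, hle, hop, hrad⟩ := h
  rw [List.mem_toFinset] at hP₀
  have hlen : 0 < C.length := List.length_pos_of_mem hP₀
  have hp := hs
  rw [List.pairwise_iff_getElem] at hp
  have h00 : C[0] = P₀ := by
    refine le_antisymm ?_ (hle _ (by rw [List.mem_toFinset]; exact List.getElem_mem _))
    obtain ⟨i, hi, rfl⟩ := List.getElem_of_mem hP₀
    rcases i with _ | i
    · exact le_rfl
    · exact (hp 0 (i + 1) hlen hi (Nat.succ_pos _)).le
  refine ⟨List.ne_nil_of_mem hP₀, hs, ?_, ?_⟩
  · intro P hP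
    rw [List.head?_eq_getElem?, List.getElem?_eq_getElem hlen] at hP
    have : C[0] = P := Option.some.inj hP
    rw [← this, h00]
    exact hop
  · intro k hk
    have h1 := hrad C[k + 1] (by rw [List.mem_toFinset]; exact List.getElem_mem _) (by
      rw [← h00]
      exact (hp 0 (k + 1) hlen hk (Nat.succ_pos _)).ne')
    rw [← LF_nrm C hs (k + 1) hk] at h1
    exact h1

end

theorem LF : LF_stmt := by
  intro G _ _ _ p
  refine ⟨LF_NC, fun C hC => ⟨LF_rad p C hC, ?_⟩, ?_, ?_, ?_⟩
  · exact List.toFinset_card_of_nodup (hC.strict.imp fun h => h.ne)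
  · intro D hD
    obtain ⟨C, h1, h2⟩ := LF_ex D.card D rfl hD.chain
    refine ⟨C, LF_rad' p C h1 (by rw [h2]; exact hD), h2⟩
  · intro C C' hC hC' he
    exact LF_uniq C C' hC.strict hC'.strict he
  · intro C C' hC hC'
    have hmap : ∀ g : G, chainMap (MulAut.conj g) C.toFinset =
        (C.map fun P => P.map (MulAut.conj g).toMonoidHom).toFinset := by
      intro g
      unfold chainMap
      ext Q
      simp only [Finset.mem_image, List.mem_toFinset, List.mem_map]
    constructor
    · rintro ⟨g, rfl⟩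
      exact ⟨g, hmap g⟩
    · rintro ⟨g, hg⟩
      rw [hmap g] at hg
      refine ⟨g, (LF_uniq _ _ ?_ hC'.strict hg).symm⟩
      rw [List.pairwise_map]
      refine hC.strict.imp fun {a b} hab => ?_
      refine lt_of_le_of_ne (Subgroup.map_mono hab.le) ?_
      intro he
      exact hab.ne (Subgroup.map_injective (MulAut.conj g).injective he)

end Pool.Agent.helper62.DZ
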