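import Pool.Agent.helper58.DC.Spec4

set_option autoImplicit false

open Pool.Agent Pool.Agent.helper58.DC

namespace Pool.Agent.helper62.DZ

theorem NN (h : DD.DVD_stmt) : NN_stmt := by
  intro G E A _ _ _ _ X p hp M χ hχ d hd
  have := Fact.mk hp
  have key : ∀ C : Finset (Subgroup G), kC X p M χ d ⊤ C = 0 := by
    intro C
    unfold kC
    rw [Nat.card_eq_zero]
    left
    refine ⟨?_⟩
    rintro ⟨ψ, h1, ⟨n, hn, hdn⟩, -⟩
    have h2 : n ∣ Nat.card (nrm C) :=
      h (nrm C) (fun x : nrm C => ψ (x : G)) h1.2 n (by simpa using hn)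
    have h3 : padicValNat p n ≤ padicValNat p (Nat.card (nrm C)) :=
      (padicValNat_dvd_iff_le Nat.card_pos.ne').1 (pow_padicValNat_dvd.trans h2)
    omega
  unfold altSum
  simp [key]

end Pool.Agent.helper62.DZ
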